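import Pool.Agent.H41.BC.AS2
import Pool.Agent.H41.BC.Cells
import Pool.Agent.H41.BC.Gap2
import Pool.Agent.H41.BC.Pi2

/-! # Generalised primes with prescribed largest gap

For every regular `h` between `log x` and `√x` there are Beurling generalised primes which satisfy the Riemann hypothesis in
the strong form `π(x) = li(x) + O(h(x) / log x)`, whose generalised integers have a density with error `O(x^(1/2+ε))`, and
whose largest gap below `x` is asymptotic to `h(x)`. -/

set_option autoImplicit false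

open MeasureTheory Filter Topology Set

namespace Pool.Agent.Results.MP_f9960f_nt.BeurlingPrimesWithGivenGaps

/-- A system of Beurling generalised primes `1 < p 0 < p 1 < ...` tending to infinity. -/
structure IsSystem (p : ℕ → ℝ) : Prop where
  one_lt : 1 < p 0
  strictMono : StrictMono p
  tendsto : Tendsto p atTop atTop

/-- The number of generalised primes `≤ x`. -/
noncomputable def primeCount (p : ℕ → ℝ) (x : ℝ) : ℕ := {n : ℕ | p n ≤ x}.ncard

/-- The number of generalised integers `≤ x`, that is of finite products `∏ p k ^ a k` (exponents `a k : ℕ`, only finitely many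
different from `0`; different families of exponents are counted separately). -/
noncomputable def integerCount (p : ℕ → ℝ) (x : ℝ) : ℕ :=
  {a : ℕ →₀ ℕ | (a.prod fun k e => p k ^ e) ≤ x}.ncard

/-- The largest gap between consecutive generalised primes whose smaller member is at most `x`. -/
noncomputable def largestGap (p : ℕ → ℝ) (x : ℝ) : ℝ :=
  sSup {d : ℝ | ∃ n : ℕ, p n ≤ x ∧ d = p (n + 1) - p n}

open Pool.Agent.H41.BC in
theorem result (h : ℝ → ℝ) (hmono : MonotoneOn h (Ici 1))
    (hlog : Tendsto (fun x => h x / Real.log x) atTop atTop)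
    (hsqrt : ∀ᶠ x in atTop, h x ≤ √x)
    (hreg : ∀ ε : ℝ, 0 < ε → ∃ δ : ℝ, 0 < δ ∧ ∀ᶠ x in atTop, h ((1 + δ) * x) ≤ (1 + ε) * h x) :
    ∃ p : ℕ → ℝ, IsSystem p ∧
      (∀ᶠ x : ℝ in atTop,
        |(primeCount p x : ℝ) - ∫ t in (2 : ℝ)..x, 1 / Real.log t| ≤ 3 * h x / Real.log x) ∧
      (∃ c : ℝ, 0 < c ∧ ∀ ε : ℝ, 0 < ε → ∃ A : ℝ, ∀ x : ℝ, 1 ≤ x →
        |(integerCount p x : ℝ) - c * x| ≤ A * x ^ (1 / 2 + ε)) ∧
      Tendsto (fun x => largestGap p x / h x) atTop (𝓝 1) := by
  have h1 : ∀ᶠ x : ℝ in atTop, Real.log x ≤ h x ∧ h x ≤ √x := by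
    filter_upwards [hlog.eventually_ge_atTop 1, hsqrt, eventually_gt_atTop 1] with x hx hx2 hx1
    refine ⟨?_, hx2⟩
    have := (le_div_iff₀ (Real.log_pos hx1)).1 hx
    linarith
  obtain ⟨x0, hx0⟩ := eventually_atTop.1 h1
  obtain ⟨T, hT, hT0⟩ := exists_T (max x0 4)
  have hF : Fit h T := by
    refine ⟨hT, fun x hx => hx0 x ?_⟩
    have h2 : max x0 4 ≤ Real.exp (T 0) := hT0.trans (by linarith [Real.add_one_le_exp (T 0)])
    exact (le_max_left _ _).trans (h2.trans hx)
  have hC := cells2 hF
  obtain ⟨W, hW, hN⟩ := as_main hC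
  have hlt : ∀ n, W n < W (n + 1) := fun n => ((hW n).2.trans (hC.le n)).trans_lt (hW (n + 1)).1
  have hW0 : 0 < W 0 := by linarith [(hW 0).1, hC.start]
  have hWT : Tendsto W atTop atTop := tendsto_atTop_mono (fun n => (hW n).1.le) hC.tendsto
  have hcount : ∀ x : ℝ, integerCount (fun n => Real.exp (W n)) x = NN W x := by
    intro x
    unfold integerCount NN
    congr 1
    ext a
    have : (a.prod fun k e => Real.exp (W k) ^ e) = Real.exp (lg W a) := by
      unfold lg
      rw [Finsupp.prod, Finsupp.sum, Real.exp_sum]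
      exact Finset.prod_congr rfl fun k _ => (Real.exp_nat_mul _ _).symm
    simp only [Set.mem_ofPred_eq, this]
  refine ⟨fun n => Real.exp (W n), ⟨Real.one_lt_exp_iff.2 hW0,
    strictMono_nat_of_lt_succ fun n => Real.exp_lt_exp.2 (hlt n), Real.tendsto_exp_atTop.comp hWT⟩, ?_, ?_, ?_⟩
  · exact pi_law2 hmono hlog hF hW
  · simp_rw [hcount]
    exact hN
  · exact gap_law2 hmono hlog hreg hF hW

end Pool.Agent.Results.MP_f9960f_nt.BeurlingPrimesWithGivenGaps
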