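import Pool.Agent.H50.LG.FING2
import Pool.Agent.H50.LG.EXL
import Pool.Agent.H50.LG.NLW
import Pool.Agent.H50.LG.UPQ
import Pool.Agent.H50.LG.LOQ
import Pool.Agent.H50.LG.GXU
import Pool.Agent.H50.LG.GXL
import Pool.Agent.H50.LG.EXG
import Pool.Agent.H50.LG.EXH
import Pool.Agent.H50.LG.MNG
import Pool.Agent.H50.LG.EXMG
import Pool.Agent.H50.LG.MMZ
import Pool.Agent.H50.LG.WNG
import Pool.Agent.H50.LG.BLK
import Pool.Agent.H50.LG.UPG
import Pool.Agent.H50.LG.LOP
import Pool.Agent.H50.LG.INFG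
import Pool.Agent.H50.GW.POSK
import Pool.Agent.H50.CW.FIN
import Pool.Agent.H50.BF.LIB
import Pool.Agent.H50.BF.SIGA
import Pool.Agent.H50.BF.SIGC
import Pool.Agent.H50.BF.SUB
import Pool.Agent.H50.BF.BT
import Pool.Agent.H50.BF.AP
import Pool.Agent.H50.BF.TRANS
import Pool.Agent.H50.BF.CRT
import Pool.Agent.H50.LS.LSS
import Pool.Agent.H50.LS.CLS
import Pool.Agent.H50.LS.PHI
import Pool.Agent.H50.LS.NUM
import Pool.Agent.H50.LS.AZ
import Pool.Agent.H50.LS.JRL
import Pool.Agent.H50.LS.FINB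

/-!
# The largest gap in the sieved Cramér models, for every level of sieving

Cramér's model of the primes with a preliminary sieve: the numbers `n` with a prime factor `≤ z n` are never
chosen, the other `n` are chosen independently with a probability asymptotic to
`∏_{p ≤ z n} (1 - 1/p)⁻¹ / log n`.  Cramér's model is `z = 1`, Granville's refinement is `z n = (log n)^(1 + o(1))`.
We determine the largest gap `G(x)` for every level `z n = (log n)^(α + o(1))`, `0 < α ≤ 1`: almost surely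
`limsup G(x) / (log x)² = 1 / liminf_w σ (w)` and `liminf G(x) / (log x)² = 1 / limsup_w σ (w)`, where `σ (w)` is the
least relative density of the integers without prime factors `≤ w` in the intervals of length `w^(2/α)`.  By the linear
sieve these constants are finite for `α < 1`.
-/

set_option autoImplicit false

open MeasureTheory Filter Set ProbabilityTheory
open scoped Topology ENNReal

namespace Pool.Agent.Results.MP_f9960f_nt.GapConstantEveryLevel

/-- `∏_{p ≤ y} (1 - 1/p)` -/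
noncomputable def mertens (y : ℕ) : ℝ := ∏ p ∈ (Finset.Icc 1 y).filter Nat.Prime, (1 - (p : ℝ)⁻¹)

/-- `n` has no prime factor `≤ w` -/
def Rough (w n : ℕ) : Prop := ∀ p : ℕ, p.Prime → p ∣ n → w < p

/-- the number of the integers without prime factors `≤ w` in the interval `(t, t + w^s]`, divided by
the expected number `w^s ∏_{p ≤ w} (1 - 1/p)` -/
noncomputable def roughDensity (w : ℕ) (s : ℝ) (t : ℕ) : ℝ :=
  (Set.ncard {m : ℕ | t < m ∧ (m : ℝ) ≤ t + (w : ℝ) ^ s ∧ Rough w m} : ℝ) / ((w : ℝ) ^ s * mertens w)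

/-- the least relative density in the intervals of length `w^s` -/
noncomputable def leastDensity (w : ℕ) (s : ℝ) : ℝ≥0∞ := ⨅ t : ℕ, ENNReal.ofReal (roughDensity w s t)

/-- the lower limit of the least relative densities -/
noncomputable def sigmaLower (s : ℝ) : ℝ≥0∞ := liminf (fun w : ℕ => leastDensity w s) atTop

/-- the upper limit of the least relative densities -/
noncomputable def sigmaUpper (s : ℝ) : ℝ≥0∞ := limsup (fun w : ℕ => leastDensity w s) atTop

/-- `1 / liminf_w` of the least relative densities in the intervals of length `w^(2/α)` -/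
noncomputable def gapUpper (α : ℝ) : ℝ≥0∞ := (sigmaLower (2 / α))⁻¹

/-- `1 / limsup_w` of the least relative densities in the intervals of length `w^(2/α)` -/
noncomputable def gapLower (α : ℝ) : ℝ≥0∞ := (sigmaUpper (2 / α))⁻¹

/-- Cramér's model with a sieve of level `z n = (log n)^(α + o(1))` -/
structure SievedModel {Ω : Type} [MeasurableSpace Ω] (P : Measure Ω) (A : ℕ → Set Ω) (z : ℕ → ℕ) (α : ℝ) :
    Prop where
  prob : IsProbabilityMeasure P
  meas : ∀ n, MeasurableSet (A n)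
  indep : iIndepSet A P
  empty : ∀ n, ¬ Rough (z n) n → A n = ∅
  mono : Monotone z
  level : Tendsto (fun n : ℕ => Real.log (z n) / Real.log (Real.log n)) atTop (𝓝 α)
  density : Tendsto (fun n : ℕ => (P (A n)).toReal * (Real.log n * mertens (z n)))
    (atTop ⊓ 𝓟 {n : ℕ | Rough (z n) n}) (𝓝 1)

/-- `G(x)`: the largest difference of consecutive elements of `S`, the smaller one at most `x`
(`Nat.nth (· ∈ S) j` is the element number `j` of `S`) -/
noncomputable def G (S : Set ℕ) (x : ℝ) : ℝ≥0∞ :=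
  ⨆ (j : ℕ) (_ : (Nat.nth (· ∈ S) j : ℝ) ≤ x), ((Nat.nth (· ∈ S) (j + 1) - Nat.nth (· ∈ S) j : ℕ) : ℝ≥0∞)

open Pool.Agent.H50.BF Pool.Agent.H50.CW Pool.Agent.H50.GW Pool.Agent.H50.LG

lemma mertens_MM (w : ℕ) : mertens w = (MM w)⁻¹ := by
  unfold mertens MM
  rw [Finset.prod_inv_distrib, inv_inv]

lemma rough_iff (w n : ℕ) : Rough w n ↔ Rou w n := by
  unfold Rough Rou
  constructor
  · intro h p hp hpw hd
    exact absurd (h p hp hd) (not_lt.2 hpw)
  · intro h p hp hd
    by_contra hcon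
    push Not at hcon
    exact h p hp hcon hd

lemma smod_iff {Ω : Type} [MeasurableSpace Ω] (P : Measure Ω) (A : ℕ → Set Ω) (z : ℕ → ℕ) (α : ℝ) :
    SievedModel P A z α ↔ SMod P A z α := by
  have h1 : {n : ℕ | Rough (z n) n} = {n : ℕ | Rou (z n) n} := by
    ext n
    exact rough_iff _ _
  have h2 : (fun n : ℕ => (P (A n)).toReal * (Real.log n * mertens (z n))) =
      fun n : ℕ => (P (A n)).toReal * (Real.log n / MM (z n)) := by
    funext n
    rw [mertens_MM, div_eq_mul_inv]
  constructor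
  · intro h
    exact ⟨h.prob, h.meas, h.indep, fun n hn => h.empty n (by rwa [rough_iff]), h.mono, h.level, by
      have := h.density
      rwa [h1, h2] at this⟩
  · intro h
    refine ⟨h.prob, h.meas, h.indep, fun n hn => h.empty n (by rwa [rough_iff] at hn), h.mono, h.lev, ?_⟩
    have := h.dens
    rw [h1, h2]
    exact this

lemma rough_sv (w t U : ℕ) : Set.ncard {m : ℕ | t < m ∧ m ≤ t + U ∧ Rough w m} = sv (fun _ => 0) w t U := by
  rw [sv_ncard]
  congr 1
  ext m
  simp only [Set.mem_ofPred_eq, Nat.zero_mod]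
  constructor
  · rintro ⟨h1, h2, h3⟩
    exact ⟨fun p hp hpw h0 => absurd (h3 p hp (Nat.dvd_of_mod_eq_zero h0)) (not_lt.2 hpw), h1, h2⟩
  · rintro ⟨h3, h1, h2⟩
    refine ⟨h1, h2, fun p hp hd => ?_⟩
    by_contra hcon
    push Not at hcon
    exact h3 p hp hcon (Nat.mod_eq_zero_of_dvd hd)

lemma roughDensity_vl (w : ℕ) (s : ℝ) (t : ℕ) : roughDensity w s t = vl w s t := by
  unfold roughDensity vl
  have h0 : (0 : ℝ) ≤ (w : ℝ) ^ s := Real.rpow_nonneg (Nat.cast_nonneg _) _
  have h : {m : ℕ | t < m ∧ (m : ℝ) ≤ t + (w : ℝ) ^ s ∧ Rough w m} =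
      {m : ℕ | t < m ∧ m ≤ t + ⌊(w : ℝ) ^ s⌋₊ ∧ Rough w m} := by
    ext m
    simp only [Set.mem_ofPred_eq]
    refine and_congr_right fun _ => and_congr_left fun _ => ?_
    rw [show t + ⌊(w : ℝ) ^ s⌋₊ = ⌊(w : ℝ) ^ s + (t : ℝ)⌋₊ by rw [Nat.floor_add_natCast h0]; omega,
      Nat.le_floor_iff (by positivity), add_comm]
  rw [h, rough_sv, mertens_MM, ← div_div, div_inv_eq_mul]
  ring

lemma least_lo (w : ℕ) (s : ℝ) : leastDensity w s = ENNReal.ofReal (lo w s) := by
  unfold leastDensity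
  have h : lo w s = ⨅ t : ℕ, roughDensity w s t := by
    unfold lo
    exact iInf_congr fun t => (roughDensity_vl w s t).symm
  rw [h]
  refine (Monotone.map_ciInf_of_continuousAt ENNReal.continuous_ofReal.continuousAt
    (fun _ _ h => ENNReal.ofReal_le_ofReal h) ?_).symm
  rw [show roughDensity w s = vl w s from funext (roughDensity_vl w s)]
  exact bddB w s

lemma lower_sl (s : ℝ) : sigmaLower s = sl s := by
  unfold sigmaLower sl
  simp only [least_lo]

lemma upper_su (s : ℝ) : sigmaUpper s = su s := by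
  unfold sigmaUpper su
  simp only [least_lo]

lemma sub' : S_SUB := sub (bt crt fund) mert

lemma mono' {s s' : ℝ} (hs : 2 ≤ s) (hs' : s ≤ s') : sl s ≤ sl s' :=
  liminf_le_add fun ε hε => mng sub' s s' ε hs hs' hε

lemma mono_su {s s' : ℝ} (hs : 2 ≤ s) (hs' : s ≤ s') : su s ≤ su s' :=
  limsup_le_add fun ε hε => mng sub' s s' ε hs hs' hε

lemma su_lt_one {s : ℝ} (hs : 2 ≤ s) : su s < 1 := by
  obtain ⟨⟨u, c, hu, hc, hw⟩, _⟩ := buch s
  refine lt_of_le_of_lt (mono_su hs hu) ?_
  have h1 : su u ≤ ENNReal.ofReal c := by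
    refine limsup_le_of_le (by isBoundedDefault) ?_
    filter_upwards [hw] with w hw
    exact ENNReal.ofReal_le_ofReal ((lo_le w u 0).trans hw)
  refine lt_of_le_of_lt h1 ?_
  rw [← ENNReal.ofReal_one]
  exact (ENNReal.ofReal_lt_ofReal_iff one_pos).2 hc

lemma sl_le_su (s : ℝ) : sl s ≤ su s := liminf_le_limsup (by isBoundedDefault) (by isBoundedDefault)

lemma trans' : S_TRANS := trans (ap (bt crt fund)) (bt crt fund) mert
lemma mmz' : S_MMZ := mmz mert
lemma wng' : S_WNG := wng mmz' mert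
lemma exg' : S_EXG := exg trans' sub'
lemma exh' : S_EXH := exh trans' sub'
lemma upg' : S_UPG := upg exg' wng' mmz'
lemma lop' : S_LOP := lop exh' posk wng' blk mmz'
lemma infg' : S_INFG := infg wng' mmz' fund mert

lemma loq' : S_LOQ := loq exh' posk wng' blk mmz'
lemma upq' : S_UPQ := upq (exl trans' sub') (nul wng' mmz' fund mert) wng' mmz' mert
lemma jrl' : Pool.Agent.H50.LS.S_JRL :=
  Pool.Agent.H50.LS.jrl Pool.Agent.H50.LS.lss Pool.Agent.H50.LS.cls Pool.Agent.H50.LS.phi (Pool.Agent.H50.LS.num mert)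

/-- The largest gap `G(x)` in the sieved Cramér models. -/
theorem result :
    -- the models exist
    (∀ α : ℝ, 0 < α → α ≤ 1 → ∃ (Ω : Type) (_ : MeasurableSpace Ω) (P : Measure Ω) (A : ℕ → Set Ω) (z : ℕ → ℕ),
      SievedModel P A z α) ∧
    -- the upper and the lower limit of `G(x) / (log x)²`
    (∀ (Ω : Type) [MeasurableSpace Ω] (P : Measure Ω) (A : ℕ → Set Ω) (z : ℕ → ℕ) (α : ℝ), 0 < α → α ≤ 1 →
      SievedModel P A z α → ∀ᵐ ω ∂P, {n : ℕ | ω ∈ A n}.Infinite ∧
        limsup (fun x : ℝ => G {n : ℕ | ω ∈ A n} x / ENNReal.ofReal (Real.log x ^ 2)) atTop = gapUpper α ∧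
        liminf (fun x : ℝ => G {n : ℕ | ω ∈ A n} x / ENNReal.ofReal (Real.log x ^ 2)) atTop = gapLower α) ∧
    -- the constants: larger than 1, nondecreasing in the level, with limit 1 at level 0
    (∀ α : ℝ, 0 < α → α ≤ 1 → 1 < gapLower α ∧ gapLower α ≤ gapUpper α) ∧
    (∀ α β : ℝ, 0 < α → α ≤ β → β ≤ 1 → gapLower α ≤ gapLower β ∧ gapUpper α ≤ gapUpper β) ∧
    Tendsto gapLower (𝓝[>] 0) (𝓝 1) ∧ Tendsto gapUpper (𝓝[>] 0) (𝓝 1) ∧
    -- the constants are finite below the level of Granville's model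
    (∀ α : ℝ, 0 < α → α < 1 → gapUpper α < ⊤) ∧
    (∀ α : ℝ, 1 / 2 ≤ α → α < 1 → gapUpper α ≤
      ENNReal.ofReal (1 / (α * Real.exp Real.eulerMascheroniConstant * Real.log (2 / α - 1)))) := by
  have hd : ∀ α : ℝ, 0 < α → α ≤ 1 → 2 ≤ 2 / α := fun α h0 h1 => by
    rw [le_div_iff₀ h0]; linarith
  have ht : Tendsto sl atTop (𝓝 1) := sl_tendsto (siga sub') (sigc fund) buch
  have ht' : Tendsto su atTop (𝓝 1) := by
    refine tendsto_of_tendsto_of_tendsto_of_le_of_le' ht tendsto_const_nhds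
      (Eventually.of_forall sl_le_su) ?_
    filter_upwards [eventually_ge_atTop 2] with s hs
    exact (su_lt_one hs).le
  have h3 : Tendsto (fun α : ℝ => 2 / α) (𝓝[>] 0) atTop := by
    have := (tendsto_inv_nhdsGT_zero (𝕜 := ℝ)).const_mul_atTop (show (0 : ℝ) < 2 by norm_num)
    refine this.congr fun α => ?_
    rw [div_eq_mul_inv]
  have hfin : ∀ α : ℝ, 1 / 2 ≤ α → α < 1 → gapUpper α ≤
      ENNReal.ofReal (1 / (α * Real.exp Real.eulerMascheroniConstant * Real.log (2 / α - 1))) := by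
    intro α h1 h2
    have h0 : 0 < α := by linarith
    have hlog : 0 < Real.log (2 / α - 1) := by
      apply Real.log_pos
      have : 2 < 2 / α := by rw [lt_div_iff₀ h0]; linarith
      linarith
    have hpos : 0 < α * Real.exp Real.eulerMascheroniConstant * Real.log (2 / α - 1) := by positivity
    rw [gapUpper, lower_sl, one_div, ENNReal.ofReal_inv_of_pos hpos, ENNReal.inv_le_inv]
    exact Pool.Agent.H50.LS.finb jrl' Pool.Agent.H50.LS.az α h1 h2
  have hmono : ∀ α β : ℝ, 0 < α → α ≤ β → β ≤ 1 → gapUpper α ≤ gapUpper β := by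
    intro α β h0 h1 h2
    unfold gapUpper
    rw [ENNReal.inv_le_inv, lower_sl, lower_sl]
    exact mono' (hd β (h0.trans_le h1) h2) (div_le_div_of_nonneg_left (by norm_num) h0 h1)
  refine ⟨fun α h0 h1 => ?_, ?_, fun α h0 h1 => ⟨?_, ?_⟩, fun α β h0 h1 h2 => ⟨?_, hmono α β h0 h1 h2⟩, ?_, ?_,
    fun α h0 h1 => ?_, hfin⟩
  · obtain ⟨Ω, m, P, A, z, h⟩ := exmg α h0 h1
    exact ⟨Ω, m, P, A, z, (smod_iff P A z α).2 h⟩
  · intro Ω _ P A z α h0 h1 hM
    have h2 := fing2 upg' lop' infg' upq' loq' gxu gxl Ω P A z α h0 h1 ((smod_iff P A z α).1 hM)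
    filter_upwards [h2] with ω hω
    refine ⟨hω.1, ?_, ?_⟩
    · rw [gapUpper, lower_sl]
      exact hω.2.1
    · rw [gapLower, upper_su]
      exact hω.2.2
  · rw [gapLower, upper_su, ENNReal.one_lt_inv]
    exact su_lt_one (hd α h0 h1)
  · unfold gapLower gapUpper
    rw [ENNReal.inv_le_inv, lower_sl, upper_su]
    exact sl_le_su _
  · unfold gapLower
    rw [ENNReal.inv_le_inv, upper_su, upper_su]
    exact mono_su (hd β (h0.trans_le h1) h2) (div_le_div_of_nonneg_left (by norm_num) h0 h1)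
  · have h4 := ((continuous_inv (G := ℝ≥0∞)).tendsto 1).comp (ht'.comp h3)
    rw [inv_one] at h4
    exact h4.congr fun α => by simp only [Function.comp, gapLower, upper_su]
  · have h4 := ((continuous_inv (G := ℝ≥0∞)).tendsto 1).comp (ht.comp h3)
    rw [inv_one] at h4
    exact h4.congr fun α => by simp only [Function.comp, gapUpper, lower_sl]
  · have h2 : gapUpper (max α (1 / 2)) < ⊤ :=
      (hfin _ (le_max_right _ _) (max_lt h1 (by norm_num))).trans_lt ENNReal.ofReal_lt_top
    exact (hmono α _ h0 (le_max_left _ _) (max_le h1.le (by norm_num))).trans_lt h2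

end Pool.Agent.Results.MP_f9960f_nt.GapConstantEveryLevel
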