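import Pool.Agent.H50.OI.ANN
import Pool.Agent.H58.OI.PSI
import Pool.Agent.H50.OI.POS
import Pool.Agent.H50.OI.EXJ
import Pool.Agent.H50.OI.BLK
import Pool.Agent.H58.OI.THK
import Pool.Agent.H50.OI.ONE
import Pool.Agent.H50.OI.GLU
import Pool.Agent.H50.OI.BND
import Pool.Agent.H50.OI.NGA
import Pool.Agent.H50.OI.NGB
import Pool.Agent.H50.OI.UPP
import Pool.Agent.H50.OI.CHE
import Pool.Agent.H50.OI.PAI
import Pool.Agent.H50.OI.BON
import Pool.Agent.H50.OI.LES
import Pool.Agent.H50.OI.LOW
import Pool.Agent.H50.OI.DET
import Pool.Agent.H50.OI.FIN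

/-!
# MP_f9960f_nt: the exact order of independence behind Cramér's conjecture

In Cramér's random model every integer `n ≥ 3` belongs to the random set `A` with probability
`1 / log n`, and the events `n ∈ A` are independent. Almost surely the largest gap `G(x)` of `A` which
begins at or before `x` is asymptotic to `log² x`. What is known or conjectured about the primes, sieve
theory and the conjectures of Hardy and Littlewood on `κ`-tuples, are correlations of bounded order. In the
model with independence of order `κ` only those sets `T` of events have to be independent whose number of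
elements is at most `κ n` for all `n ∈ T`. How many correlations determine the size of the largest gap?

**Theorem.** (1) If `κ n ≥ (ρ - o(1)) log n` with `ρ > 0`, then in EVERY model of order `κ` almost surely
`G(x) ≥ (min(1, ρ / 4) - o(1)) log² x` for all large `x`.

(2) This is best possible: if `κ n ≤ (ρ + o(1)) log n` with `0 ≤ ρ ≤ 4`, then there is a model of order `κ`
in which almost surely `G(x) ~ (ρ / 4) log² x`.

(3) If `κ n ≥ (4 - o(1)) log n`, then `G(x) ~ log² x` almost surely in every model of order `κ`. Conversely, if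
`κ` is nondecreasing and `G(x) ~ log² x` almost surely in every model of order `κ`, then
`κ n ≥ (4 - o(1)) log n`.

So all the correlations of order at most `4 log x` (and not fewer) are behind Cramér's asymptotic formula.

On the proof. The lower bound in (1) uses the second moment method: the indicator of an empty interval of
length `c log² x` is at most the square of a polynomial of degree `s` (slightly larger than `c log x`) in
the indicators of the events `n ∈ A`, with almost the same expectation (a Christoffel polynomial), so that the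
correlations of two empty intervals are controlled by independence of order `4 s`. For (2) let the interval
be divided into `S` sub-intervals. A contour integral gives a function of the number of the points in a
sub-interval which is `1` if it is empty, exponentially small otherwise, and orthogonal to all products of at
most `m` indicators, where `m` is slightly less than twice the expected number of points in the sub-interval.
The product measure is multiplied by the partition function of a random one-dimensional system with these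
functions as activities. The system has a random coupling for every window of `S` consecutive sub-intervals,
independent for `S` consecutive windows, with mean zero and almost always `1`: all terms with fewer than
`2 S` sub-intervals cancel in the mean, so that the law has independence of order `2 S (m + 1) - 1`. The
partition function is nonnegative by a transfer matrix argument, and, if all the couplings are `1`, it
vanishes if some window is empty.
-/

set_option autoImplicit false

namespace Pool.Agent.Results.MP_f9960f_nt.OrdersOfIndependence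

open MeasureTheory Filter Topology Pool.Agent.H50.OI

/-- Cramér's model with independence of order `κ`: `E n` is the event that the integer `n` belongs
to the random set. For every finite set `T` of integers `n ≥ 3` with at most `κ n` elements for
all `n ∈ T`, the probability that `T` is contained in the random set is `∏ 1 / log n`. -/
structure CramerModel {Ω : Type} [MeasurableSpace Ω] (P : Measure Ω) (κ : ℕ → ℕ)
    (E : ℕ → Set Ω) : Prop where
  meas : ∀ n, MeasurableSet (E n)
  indep : ∀ T : Finset ℕ, (∀ n ∈ T, 3 ≤ n ∧ T.card ≤ κ n) →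
    P (⋂ n ∈ T, E n) = ENNReal.ofReal (∏ n ∈ T, 1 / Real.log n)

/-- In every model of order `κ` the random set `{n | ω ∈ E n}` has the property `Q` almost
surely. -/
def InEveryModel (κ : ℕ → ℕ) (Q : Set ℕ → Prop) : Prop :=
  ∀ (Ω : Type) [MeasurableSpace Ω] (P : Measure Ω) [IsProbabilityMeasure P] (E : ℕ → Set Ω),
    CramerModel P κ E → ∀ᵐ ω ∂P, Q {n | ω ∈ E n}

/-- In some model of order `κ` the random set `{n | ω ∈ E n}` has the property `Q` almost
surely. -/
def InSomeModel (κ : ℕ → ℕ) (Q : Set ℕ → Prop) : Prop :=
  ∃ (Ω : Type) (_ : MeasurableSpace Ω) (P : Measure Ω) (_ : IsProbabilityMeasure P)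
    (E : ℕ → Set Ω), CramerModel P κ E ∧ ∀ᵐ ω ∂P, Q {n | ω ∈ E n}

/-- `κ n ≥ (ρ - o(1)) log n` -/
def AtLeast (κ : ℕ → ℕ) (ρ : ℝ) : Prop :=
  ∀ c : ℝ, c < ρ → ∀ᶠ n : ℕ in atTop, c * Real.log n ≤ κ n

/-- `κ n ≤ (ρ + o(1)) log n` -/
def AtMost (κ : ℕ → ℕ) (ρ : ℝ) : Prop :=
  ∀ c : ℝ, ρ < c → ∀ᶠ n : ℕ in atTop, (κ n : ℝ) ≤ c * Real.log n

/-- `G(x)`: the largest difference `g = a' - a` of consecutive elements `a < a' = a + g` of `A` with
`a ≤ x`. -/
noncomputable def G (A : Set ℕ) (x : ℕ) : ℕ :=
  sSup {g | 0 < g ∧ ∃ a ∈ A, a ≤ x ∧ a + g ∈ A ∧ ∀ n, a < n → n < a + g → n ∉ A}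

/-- The exact order of independence behind Cramér's conjecture. -/
theorem result :
    -- (1) the lower bound in every model
    (∀ (κ : ℕ → ℕ) (ρ : ℝ), 0 < ρ → AtLeast κ ρ → InEveryModel κ fun A => A.Infinite ∧
      ∀ c : ℝ, c < min 1 (ρ / 4) → ∀ᶠ x : ℕ in atTop, c * Real.log x ^ 2 ≤ G A x) ∧
    -- (2) it is attained
    (∀ (κ : ℕ → ℕ) (ρ : ℝ), 0 ≤ ρ → ρ ≤ 4 → AtMost κ ρ → InSomeModel κ fun A => A.Infinite ∧
      Tendsto (fun x : ℕ => (G A x : ℝ) / Real.log x ^ 2) atTop (𝓝 (ρ / 4))) ∧
    -- (3) Cramér's asymptotic formula
    (∀ κ : ℕ → ℕ, AtLeast κ 4 → InEveryModel κ fun A => A.Infinite ∧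
      Tendsto (fun x : ℕ => (G A x : ℝ) / Real.log x ^ 2) atTop (𝓝 1)) ∧
    (∀ κ : ℕ → ℕ, Monotone κ → ((InEveryModel κ fun A =>
      Tendsto (fun x : ℕ => (G A x : ℝ) / Real.log x ^ 2) atTop (𝓝 1)) ↔ AtLeast κ 4)) := by
  have hpsi := Pool.Agent.H58.OI.psi ann
  have hblk := blk pos exj expn
  have hone := one hpsi hblk Pool.Agent.H58.OI.thk
  have hlow := low che pai bon les
  have hnga := nga hone glu bnd
  have hngb := ngb hone glu
  have h3 : ∀ κ : ℕ → ℕ, AtLeast κ 4 → InEveryModel κ fun A => A.Infinite ∧
      Tendsto (fun x : ℕ => (G A x : ℝ) / Real.log x ^ 2) atTop (𝓝 1) := by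
    intro κ hκ Ω _ P _ E hM
    have h1 := FIN.every hlow bnd glo P (by norm_num : (0:ℝ) < 4) ⟨hM.meas, hM.indep⟩ hκ
    have h2 := FIN.full hlow bnd glo gup upp P ⟨hM.meas, hM.indep⟩ hκ
    filter_upwards [h1, h2] with ω h4 h5
    exact ⟨h4.1, h5⟩
  refine ⟨?_, ?_, h3, ?_⟩
  · intro κ ρ hρ hκ Ω _ P _ E hM
    exact FIN.every hlow bnd glo P hρ ⟨hM.meas, hM.indep⟩ hκ
  · intro κ ρ hρ hρ4 hκ
    obtain ⟨Ω, mΩ, P, hP, E, hM, hae⟩ := FIN.small hlow bnd glo gup hnga hρ hρ4 hκ
    exact ⟨Ω, mΩ, P, hP, E, ⟨hM.1, hM.2⟩, hae⟩
  · intro κ hmono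
    constructor
    · intro h
      exact FIN.converse hngb gnb hmono fun Ω _ P _ E hM => h Ω P E ⟨hM.1, hM.2⟩
    · intro h Ω _ P _ E hM
      filter_upwards [h3 κ h Ω P E hM] with ω h4
      exact h4.2

end Pool.Agent.Results.MP_f9960f_nt.OrdersOfIndependence
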