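import Pool.Agent.H50.A.Freq

set_option autoImplicit false

/-! # MP_f9960f_nt: how often is a translate of an arbitrary set free of primes?

Write `log_k` for the iterated logarithms and `g(X) = log X (log₂ X)² log₄ X / log₃ X`.
Let `A, ε > 0`.  There is `δ > 0` such that for all large `X` and all `u, w ≥ 0` with
`log₃ X ≤ u + w ≤ δ log₂ X`: if `Z` is any set of at most `(1/2 - ε) g(X) / (u + w)` integers in
`[1, e^u log X]`, then every interval `(x, x + X]` with `0 ≤ x ≤ exp ((log X)^A)` contains at least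
`X exp (-ε e^(-w) log X)` integers `n` for which each `n + z`, `z ∈ Z`, has a prime factor
`p ≤ exp (log X / log₂ X)`, `p < n + z`. -/

namespace Pool.Agent.Results.MP_f9960f_nt.PrimeFreeTranslatesOften

open Filter

/-- the function `log X (log₂ X)² log₄ X / log₃ X` -/
noncomputable def g (X : ℝ) : ℝ :=
  Real.log X * (Real.log (Real.log X)) ^ 2 * Real.log (Real.log (Real.log (Real.log X))) /
    Real.log (Real.log (Real.log X))

theorem fin_aux (x X : ℝ) (P : ℕ → Prop) : {n : ℕ | x < n ∧ (n : ℝ) ≤ x + X ∧ P n}.Finite := by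
  refine (Set.finite_Iic ⌊x + X⌋₊).subset ?_
  intro n hn
  exact Nat.le_floor hn.2.1

open scoped Classical in
theorem translates_often (A ε : ℝ) (hA : 0 < A) (hε : 0 < ε) : ∃ δ : ℝ, 0 < δ ∧ ∃ X₀ : ℝ, ∀ X : ℝ, X₀ ≤ X →
    ∀ u w : ℝ, 0 ≤ u → 0 ≤ w → Real.log (Real.log (Real.log X)) ≤ u + w →
      u + w ≤ δ * Real.log (Real.log X) →
      ∀ Z : Finset ℕ, (∀ z ∈ Z, 1 ≤ z ∧ (z : ℝ) ≤ Real.exp u * Real.log X) →
      (Z.card : ℝ) ≤ (1 / 2 - ε) * g X / (u + w) →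
      ∀ x : ℝ, 0 ≤ x → x ≤ Real.exp ((Real.log X) ^ A) →
      X * Real.exp (-(ε * Real.exp (-w) * Real.log X)) ≤
        ({n : ℕ | x < n ∧ (n : ℝ) ≤ x + X ∧ ∀ z ∈ Z, ∃ p : ℕ, p.Prime ∧
          (p : ℝ) ≤ Real.exp (Real.log X / Real.log (Real.log X)) ∧ p ∣ n + z ∧
            p < n + z}.ncard : ℝ) := by
  obtain ⟨e, he⟩ : ∃ e : ℝ, e = min ε (1 / 2) := ⟨_, rfl⟩
  have he0 : 0 < e := by rw [he]; exact lt_min hε (by norm_num)
  have he1 : e < 1 := by
    rw [he]; exact lt_of_le_of_lt (min_le_right _ _) (by norm_num)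
  have heε : e ≤ ε := by rw [he]; exact min_le_left _ _
  obtain ⟨δ, hδ, -, h⟩ := Pool.Agent.H50.A.freqU 1 one_pos A e hA he0 he1
  have hL : Tendsto Real.log atTop atTop := Real.tendsto_log_atTop
  have ev := h.and ((((hL.comp (hL.comp (hL.comp hL))).eventually (eventually_gt_atTop 0))).and
    (((hL.comp (hL.comp hL)).eventually (eventually_gt_atTop 0)).and
    (((hL.comp hL).eventually (eventually_gt_atTop 0)).and
    ((hL.eventually (eventually_gt_atTop 0)).and (eventually_gt_atTop (0:ℝ))))))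
  obtain ⟨X₀, hX₀⟩ := eventually_atTop.1 ev
  refine ⟨δ, hδ, X₀, fun X hX u w hu hw huw1 huw2 Z hZ hZc x hx hxA => ?_⟩
  obtain ⟨h1, s0, t0, l0, L0, X0⟩ := hX₀ X hX
  simp only [Function.comp] at s0 t0 l0
  have huw : 0 < u + w := by linarith
  have hg : 0 ≤ g X := by unfold g; positivity
  have h2 := h1 u w hu hw huw1 huw2 0 Z hZ (by
    have e1 : ((Z.filter (fun z => (1:ℕ).Coprime (0 + z))).card : ℝ) = Z.card := by
      congr 2
      apply Finset.filter_true_of_mem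
      intro z _
      exact Nat.coprime_one_left _
    rw [e1, Nat.totient_one]
    change (Z.card : ℝ) * ((1:ℕ) : ℝ) * (2 * (u + w)) ≤ (1 - e) * ((1:ℕ) : ℝ) * g X
    push_cast
    rw [le_div_iff₀ huw] at hZc
    have : (1 - 2 * ε) * g X ≤ (1 - e) * g X :=
      mul_le_mul_of_nonneg_right (by linarith) hg
    linarith) x hx hxA
  refine le_trans (le_trans ?_ h2) ?_
  · apply mul_le_mul_of_nonneg_left _ X0.le
    apply Real.exp_le_exp.2
    have := mul_le_mul_of_nonneg_right heε (show 0 ≤ Real.exp (-w) * Real.log X by positivity)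
    linarith
  · apply Nat.cast_le.2
    rw [← Set.ncard_coe_finset]
    apply Set.ncard_le_ncard _ (fin_aux x X _)
    intro n hn
    rw [Finset.mem_coe, Finset.mem_filter, Finset.mem_Ioc] at hn
    refine ⟨(Nat.floor_lt hx).1 hn.1.1, ?_, hn.2.2⟩
    exact (Nat.le_floor_iff (by linarith)).1 hn.1.2

theorem result (A ε : ℝ) (hA : 0 < A) (hε : 0 < ε) :
    ∃ δ : ℝ, 0 < δ ∧ ∃ X₀ : ℝ, ∀ X : ℝ, X₀ ≤ X →
      ∀ u w : ℝ, 0 ≤ u → 0 ≤ w → Real.log (Real.log (Real.log X)) ≤ u + w →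
      u + w ≤ δ * Real.log (Real.log X) →
      ∀ Z : Finset ℕ, (∀ z ∈ Z, 1 ≤ z ∧ (z : ℝ) ≤ Real.exp u * Real.log X) →
      (Z.card : ℝ) ≤ (1 / 2 - ε) * g X / (u + w) →
      ∀ x : ℝ, 0 ≤ x → x ≤ Real.exp ((Real.log X) ^ A) →
      X * Real.exp (-(ε * Real.exp (-w) * Real.log X)) ≤
        ({n : ℕ | x < n ∧ (n : ℝ) ≤ x + X ∧ ∀ z ∈ Z, ∃ p : ℕ, p.Prime ∧
          (p : ℝ) ≤ Real.exp (Real.log X / Real.log (Real.log X)) ∧ p ∣ n + z ∧
            p < n + z}.ncard : ℝ) :=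
  translates_often A ε hA hε

end Pool.Agent.Results.MP_f9960f_nt.PrimeFreeTranslatesOften
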